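import Pool.Agent.Helper26.MCE.GoalsB

/-!
Project MCE, packet DC (deterministic coverage).
-/

namespace Pool.Agent.Helper18.MCE

open Finset Pool.Agent.Helper26.MCE

variable {G : Type} [AddCommGroup G] [Fintype G]

open Classical in
/-- A coset of `K` has `|K|` elements. -/
theorem card_coset (K : AddSubgroup G) (q : G) :
    (univ.filter fun y : G => y - q ∈ K).card = Nat.card K := by
  rw [Nat.card_eq_fintype_card, ← Finset.card_univ]
  refine Finset.card_bij' (fun y hy => (⟨y - q, (Finset.mem_filter.mp hy).2⟩ : K))
    (fun k _ => (k : G) + q) ?_ ?_ ?_ ?_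
  · intro y hy
    exact Finset.mem_univ _
  · intro k _
    simp
  · intro y hy
    simp
  · intro k _
    simp

open Classical in
/-- The same coset, with the roles exchanged. -/
theorem card_coset' (K : AddSubgroup G) (y : G) :
    (univ.filter fun q : G => y - q ∈ K).card = Nat.card K := by
  rw [← card_coset K y]
  congr 1
  ext q
  simp only [Finset.mem_filter, Finset.mem_univ, true_and]
  rw [← neg_sub, neg_mem_iff]

omit [Fintype G] in
theorem NF_congr {D : Finset G} {K : AddSubgroup G} {x y : G} (h : x - y ∈ K) (hx : NF D K x) :
    NF D K y := by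
  obtain ⟨g, hg, hgD⟩ := hx
  refine ⟨x - y + g, K.add_mem h hg, ?_⟩
  have : y + (x - y + g) = x + g := by abel
  rw [this]
  exact hgD

theorem NF_of_not_full {D : Finset G} {K : AddSubgroup G} {x : G} (h : x ∉ full D K) :
    NF D K x := by
  classical
  by_contra hc
  apply h
  unfold NF at hc
  push Not at hc
  unfold full
  rw [Finset.mem_filter]
  refine ⟨?_, hc⟩
  have := hc 0 K.zero_mem
  simpa using this

theorem not_full_of_NF {D : Finset G} {K : AddSubgroup G} {x : G} (h : NF D K x) :
    x ∉ full D K := by
  classical
  intro hx
  unfold full at hx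
  rw [Finset.mem_filter] at hx
  obtain ⟨g, hg, hgD⟩ := h
  exact hgD (hx.2 g hg)

open Classical in
/-- The points of a coset covered by one leaf. -/
theorem card_one (D : Finset G) (K : AddSubgroup G) (q p : G) :
    (univ.filter fun y : G => y - q ∈ K ∧ y - p ∈ D).card ≤ (fib D K (q - p)).card := by
  apply Finset.card_le_card_of_injOn (fun y => y - p)
  · intro y hy
    rw [Finset.mem_coe, Finset.mem_filter] at hy
    rw [Finset.mem_coe]
    unfold fib
    rw [Finset.mem_filter]
    refine ⟨hy.2.2, ?_⟩
    have : y - p - (q - p) = y - q := by abel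
    rw [this]
    exact hy.2.1
  · intro y _ z _ h
    simpa using h

theorem goalDC (h1 : G_POS) : G_DC := by
  classical
  intro G _ _ s V _ D K f B ρ ρh t L2 c ty m lam hch hfo hρ ω hω
  obtain ⟨P1, -, -, -⟩ := h1 G s V K c hch.anti hfo.ref
  have P1 := P1 ω hω
  intro l hl1 hls
  -- downward induction
  induction' hd : s - l with d ih generalizing l
  · have hl : l = s := by omega
    subst hl
    intro v q hq
    have hempty : (univ.filter fun y => y - q ∈ K l ∧
        ∃ v', c l v' = c l v ∧ Cov D c ω v' y) = ∅ := by
      rw [Finset.filter_eq_empty_iff]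
      rintro y - ⟨hyq, v', hv', hcov⟩
      rw [hfo.cs, hfo.cs] at hv'
      subst hv'
      rw [hch.Ks, AddSubgroup.mem_bot, sub_eq_zero] at hyq
      subst hyq
      obtain ⟨g, hg, hgD⟩ := hq
      rw [hch.Ks, AddSubgroup.mem_bot] at hg
      subst hg
      rw [add_zero] at hgD
      exact hgD hcov
    rw [hempty]
    simp
  · intro v q hq
    have hls' : l < s := by omega
    have hN : (0 : ℝ) < Nat.card (K l) := by
      have : 0 < Nat.card (K l) := Nat.card_pos
      exact_mod_cast this
    have hsum : ∑ i ∈ Ico l s, ρ i = ρ l + ∑ i ∈ Ico (l + 1) s, ρ i :=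
      Finset.sum_eq_sum_Ico_succ_bot hls' ρ
    have hσ : 0 ≤ ∑ i ∈ Ico (l + 1) s, ρ i := Finset.sum_nonneg fun i _ => (hρ i).le
    rcases hfo.up v l hls' with hup | hup
    · -- few leaves
      set U := univ.filter fun v' => c l v' = c l v with hU
      have hsub : (univ.filter fun y => y - q ∈ K l ∧ ∃ v', c l v' = c l v ∧ Cov D c ω v' y) ⊆
          U.biUnion fun v' => univ.filter fun y => y - q ∈ K l ∧ y - pos c ω v' ∈ D := by
        intro y hy
        rw [Finset.mem_filter] at hy
        obtain ⟨-, hyq, v', hv', hcov⟩ := hy
        rw [Finset.mem_biUnion]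
        refine ⟨v', ?_, ?_⟩
        · rw [hU, Finset.mem_filter]
          exact ⟨Finset.mem_univ _, hv'⟩
        · rw [Finset.mem_filter]
          exact ⟨Finset.mem_univ _, hyq, hcov⟩
      have hle : (univ.filter fun y => y - q ∈ K l ∧
          ∃ v', c l v' = c l v ∧ Cov D c ω v' y).card ≤ U.card * f l := by
        refine (Finset.card_le_card hsub).trans (Finset.card_biUnion_le.trans ?_)
        rw [← smul_eq_mul]
        apply Finset.sum_le_card_nsmul
        intro v' hv'
        rw [hU, Finset.mem_filter] at hv'
        refine (card_one D (K l) q (pos c ω v')).trans ?_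
        apply hch.fib_le l hls
        apply NF_congr _ hq
        have : q - pos c ω v - (q - pos c ω v') = pos c ω v' - pos c ω v := by abel
        rw [this]
        exact P1 l hls v' v hv'.2
      calc ((univ.filter fun y => y - q ∈ K l ∧
          ∃ v', c l v' = c l v ∧ Cov D c ω v' y).card : ℝ) ≤ ((U.card * f l : ℕ) : ℝ) := by
            exact_mod_cast hle
        _ = (U.card : ℝ) * f l := by push_cast; ring
        _ ≤ ρ l * (Nat.card (K l) : ℕ) := hup
        _ ≤ (∑ i ∈ Ico l s, ρ i) * Nat.card (K l) := by
            rw [hsum]
            nlinarith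
    · -- one cluster of the next level
      set S := univ.filter fun y => y - q ∈ K l ∧ ∃ v', c l v' = c l v ∧ Cov D c ω v' y with hS
      set S1 := S.filter fun y => y - pos c ω v ∈ full D (K (l + 1)) with hS1
      set S2 := S.filter fun y => ¬ (y - pos c ω v ∈ full D (K (l + 1))) with hS2
      have hcard : S.card = S1.card + S2.card := by
        rw [hS1, hS2, Finset.card_filter_add_card_filter_not]
      have h1c : (S1.card : ℝ) ≤ ρ l * Nat.card (K l) := by
        have hsub : S1 ⊆ univ.filter fun y : G => y - q ∈ K l ∧ y - pos c ω v ∈ D := by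
          intro y hy
          rw [hS1, Finset.mem_filter, hS, Finset.mem_filter] at hy
          rw [Finset.mem_filter]
          refine ⟨Finset.mem_univ _, hy.1.2.1, ?_⟩
          have := hy.2
          unfold full at this
          exact (Finset.mem_filter.mp this).1
        have h2 : S1.card ≤ f l :=
          (Finset.card_le_card hsub).trans ((card_one D (K l) q (pos c ω v)).trans
            (hch.fib_le l hls _ hq))
        calc (S1.card : ℝ) ≤ f l := by exact_mod_cast h2
          _ ≤ ρ l * Nat.card (K l) := hch.dens l hl1 hls'
      have hN' : (0 : ℝ) < Nat.card (K (l + 1)) := by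
        have : 0 < Nat.card (K (l + 1)) := Nat.card_pos
        exact_mod_cast this
      have h2c : (S2.card : ℝ) ≤ (∑ i ∈ Ico (l + 1) s, ρ i) * Nat.card (K l) := by
        set A := univ.filter fun q' : G => q' - q ∈ K l with hA
        have hAc : A.card = Nat.card (K l) := card_coset (K l) q
        -- double counting
        have hdc : ∑ q' ∈ A, (S2.filter fun y => y - q' ∈ K (l + 1)).card =
            S2.card * Nat.card (K (l + 1)) := by
          have e1 : ∑ q' ∈ A, (S2.filter fun y => y - q' ∈ K (l + 1)).card =
              ∑ y ∈ S2, (A.filter fun q' => y - q' ∈ K (l + 1)).card := by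
            simp_rw [Finset.card_filter]
            exact Finset.sum_comm
          rw [e1]
          have e2 : ∀ y ∈ S2, (A.filter fun q' => y - q' ∈ K (l + 1)).card =
              Nat.card (K (l + 1)) := by
            intro y hy
            rw [← card_coset' (K (l + 1)) y]
            congr 1
            ext q'
            rw [hA, Finset.mem_filter, Finset.mem_filter, Finset.mem_filter]
            constructor
            · rintro ⟨-, h⟩
              exact ⟨Finset.mem_univ _, h⟩
            · rintro ⟨-, h⟩
              refine ⟨⟨Finset.mem_univ _, ?_⟩, h⟩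
              rw [hS2, Finset.mem_filter, hS, Finset.mem_filter] at hy
              have h3 : y - q' ∈ K l := hch.anti l hls' h
              have : q' - q = (y - q) - (y - q') := by abel
              rw [this]
              exact (K l).sub_mem hy.1.2.1 h3
          rw [Finset.sum_congr rfl e2, Finset.sum_const, smul_eq_mul]
        have hterm : ∀ q' ∈ A, ((S2.filter fun y => y - q' ∈ K (l + 1)).card : ℝ) ≤
            (∑ i ∈ Ico (l + 1) s, ρ i) * Nat.card (K (l + 1)) := by
          intro q' hq'
          by_cases hNF : NF D (K (l + 1)) (q' - pos c ω v)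
          · have := ih (l + 1) (by omega) (by omega) (by omega) v q' hNF
            refine le_trans ?_ this
            have hsub : (S2.filter fun y => y - q' ∈ K (l + 1)) ⊆
                univ.filter fun y => y - q' ∈ K (l + 1) ∧
                  ∃ v', c (l + 1) v' = c (l + 1) v ∧ Cov D c ω v' y := by
              intro y hy
              rw [Finset.mem_filter, hS2, Finset.mem_filter, hS, Finset.mem_filter] at hy
              obtain ⟨⟨⟨-, -, v', hv', hcov⟩, -⟩, hyq'⟩ := hy
              rw [Finset.mem_filter]
              exact ⟨Finset.mem_univ _, hyq', v', hup v' hv', hcov⟩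
            exact_mod_cast Finset.card_le_card hsub
          · have hempty : (S2.filter fun y => y - q' ∈ K (l + 1)) = ∅ := by
              rw [Finset.filter_eq_empty_iff]
              intro y hy hyq'
              rw [hS2, Finset.mem_filter] at hy
              apply hNF
              have hny := NF_of_not_full hy.2
              apply NF_congr _ hny
              have : y - pos c ω v - (q' - pos c ω v) = y - q' := by abel
              rw [this]
              exact hyq'
            rw [hempty, Finset.card_empty, Nat.cast_zero]
            exact mul_nonneg hσ hN'.le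
        have htot : (S2.card : ℝ) * Nat.card (K (l + 1)) ≤
            Nat.card (K l) * ((∑ i ∈ Ico (l + 1) s, ρ i) * Nat.card (K (l + 1))) := by
          have e3 : (S2.card : ℝ) * Nat.card (K (l + 1)) =
              ∑ q' ∈ A, ((S2.filter fun y => y - q' ∈ K (l + 1)).card : ℝ) := by
            rw [← Nat.cast_sum, hdc]
            push_cast
            ring
          rw [e3, ← hAc, ← nsmul_eq_mul]
          exact Finset.sum_le_card_nsmul _ _ _ hterm
        have : (S2.card : ℝ) * Nat.card (K (l + 1)) ≤
            ((∑ i ∈ Ico (l + 1) s, ρ i) * Nat.card (K l)) * Nat.card (K (l + 1)) := by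
          linarith
        exact le_of_mul_le_mul_right this hN'
      rw [hcard, hsum]
      push_cast
      linarith

end Pool.Agent.Helper18.MCE
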